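import Pool.Agent.H37.CTL.Stmts

/-!
Row T42 of the board `ctl`: the conductor of case (I)
-/

set_option autoImplicit false

namespace Pool.CND

open Finset Polynomial

theorem t42_thm (hUMR : S_UMR) (hCNV : S_CNV) (hINF : S_INF) (hTOT : S_TOT) (hWLD : S_WLD)
    (hLON : S_LON) : S_T42 := by
  intro p k F L _ _ _ _ _ _ f q t X G₀ ρ P hp hchar hf hq hF hS hC ht h0 h12
  have : Fact p.Prime := ⟨hp⟩
  have : CharP L p := charP_of_injective_algebraMap (algebraMap k L).injective p
  have hq2 : 2 ≤ q := by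
    rw [hq]
    calc 2 ≤ p := hp.two_le
      _ = p ^ 1 := (pow_one p).symm
      _ ≤ p ^ f := Nat.pow_le_pow_right hp.pos hf
  have hqz : (2 : ℤ) ≤ (q : ℤ) := by exact_mod_cast hq2
  have : Finite F := Nat.finite_of_card_ne_zero (by rw [hF]; omega)
  let _ : Fintype F := Fintype.ofFinite F
  have : Finite (Matrix.SpecialLinearGroup (Fin 3) F) :=
    inferInstanceAs (Finite {A : Matrix (Fin 3) (Fin 3) F // A.det = 1})
  have : Finite G₀ := inferInstance
  let _ : Fintype G₀ := Fintype.ofFinite G₀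
  have hfro : ∀ x y : L, (x + y) ^ q = x ^ q + y ^ q := by
    intro x y
    rw [hq]
    exact add_pow_expChar_pow x y p f
  have hc : ∀ a : F, (cst k F L a) ^ q = cst k F L a := by
    intro a
    have h1 : a ^ q = a := by
      rw [← hF, Nat.card_eq_fintype_card]
      exact FiniteField.pow_card a
    show (algebraMap k L (algebraMap F k a)) ^ q = algebraMap k L (algebraMap F k a)
    rw [← map_pow, ← map_pow, h1]
  have hc0 : ∀ a : F, cst k F L a = 0 → a = 0 := by
    intro a h
    have h1 : algebraMap k L (algebraMap F k a) = 0 := h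
    rw [map_eq_zero, map_eq_zero] at h1
    exact h1
  have hsumX : ∀ c : Fin 3 → F, (∑ i, cst k F L (c i) * X i) =
      cst k F L (c 0) * X 0 + cst k F L (c 1) * X 1 + cst k F L (c 2) * X 2 := by
    intro c
    rw [Fin.sum_univ_three]
  have hXne : ∀ i, X i ≠ 0 := by
    intro i h
    have h1 := hS.ind (fun j => if j = i then 1 else 0) (by
      rw [Finset.sum_eq_single i]
      · rw [h, mul_zero]
      · intro j _ hj
        simp [cst, hj]
      · intro h2
        exact absurd (mem_univ i) h2)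
    have h2 := congrFun h1 i
    simp at h2
  -- orders
  set e : ℤ := P.ord t with he
  have hX0 : 0 < P.ord (X 0) := by
    by_contra hcon
    rw [not_lt] at hcon
    have : ((q : ℤ) - 1) * P.ord (X 0) ≤ 0 := mul_nonpos_of_nonneg_of_nonpos (by linarith) hcon
    linarith
  have hpos : (0 : ℤ) < (q : ℤ) ^ 3 - q := by nlinarith [mul_pos (show (0 : ℤ) < q by linarith) (show (0 : ℤ) < (q : ℤ) - 1 by linarith)]
  have hneg : ∀ c : Fin 3 → F, (c 1 ≠ 0 ∨ c 2 ≠ 0) → P.ord (∑ i, cst k F L (c i) * X i) < 0 := by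
    intro c h
    have h1 := h12 c h
    by_contra hcon
    rw [not_lt] at hcon
    have : 0 ≤ ((q : ℤ) ^ 3 - q) * P.ord (∑ i, cst k F L (c i) * X i) :=
      mul_nonneg hpos.le hcon
    linarith
  -- an element of the span whose order is larger than that of `X i`
  obtain ⟨W, I, hW, hI, hWI, ⟨nW, hnW⟩, n, hn, hcard⟩ := hWLD p k L G₀ P ρ hp hchar hC.cov.inj
  have hWm : ∀ g : G₀, g ∈ W ↔ g ∈ ram P ρ 1 := by
    intro g
    rw [← hW]
    rfl
  have hbig : ∀ g ∈ W, ∀ x : L, x ≠ 0 → P.Ge (ρ g x - x) (P.ord x + 1) := by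
    intro g hg x hx
    obtain ⟨hfix, hram⟩ := (hWm g).1 hg
    have h3 : P.Ge (ρ g P.pi - P.pi) ((1 : ℤ) + 1) := by
      rcases hram P.pi P.pi_ne P.ord_pi with h | h
      · exact Or.inl (sub_eq_zero.2 h)
      · right
        simpa using h
    rcases hLON k L P (ρ g) P.pi 1 hfix P.pi_ne P.ord_pi (by norm_num) h3 x with h | h
    · exact h
    · exact absurd h hx
  have hdiff : ∀ (g : G₀) (i : Fin 3), ρ g (X i) - X i =
      ∑ j, cst k F L (g.1.1 j i - if j = i then 1 else 0) * X j := by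
    intro g i
    rw [hC.act g i, Fin.sum_univ_three, Fin.sum_univ_three]
    fin_cases i <;> simp [cst] <;> ring
  have k0 : ∀ g ∈ W, ∀ j, g.1.1 j 0 = if j = 0 then 1 else 0 := by
    intro g hg j
    have h1 := hbig g hg (X 0) (hXne 0)
    rw [hdiff g 0] at h1
    have h2 : ¬ ((fun j => g.1.1 j 0 - if j = 0 then 1 else 0) 1 ≠ 0 ∨
        (fun j => g.1.1 j 0 - if j = 0 then 1 else 0) 2 ≠ 0) := by
      intro h
      have h3 := hneg (fun j => g.1.1 j 0 - if j = 0 then 1 else 0) h
      rcases h1 with h4 | h4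
      · have h5 := hS.ind (fun j => g.1.1 j 0 - if j = 0 then 1 else 0) h4
        rcases h with h | h
        · exact h (congrFun h5 1)
        · exact h (congrFun h5 2)
      · linarith
    rw [not_or, not_not, not_not] at h2
    obtain ⟨h3, h4⟩ := h2
    have h5 : g.1.1 0 0 - 1 = 0 := by
      rcases h1 with h | h
      · have h5 := congrFun (hS.ind (fun j => g.1.1 j 0 - if j = 0 then 1 else 0) h) 0
        simpa using h5
      · by_contra hne
        have h6 : (∑ j, cst k F L (g.1.1 j 0 - if j = 0 then 1 else 0) * X j) =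
            algebraMap k L (algebraMap F k (g.1.1 0 0 - 1)) * X 0 := by
          rw [Fin.sum_univ_three]
          have a1 : g.1.1 1 0 - (if (1 : Fin 3) = 0 then (1 : F) else 0) = 0 := h3
          have a2 : g.1.1 2 0 - (if (2 : Fin 3) = 0 then (1 : F) else 0) = 0 := h4
          rw [a1, a2]
          simp [cst]
        rw [h6] at h
        have hk : algebraMap F k (g.1.1 0 0 - 1) ≠ 0 := by
          rw [Ne, map_eq_zero]
          exact hne
        have hL : algebraMap k L (algebraMap F k (g.1.1 0 0 - 1)) ≠ 0 := by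
          rw [Ne, map_eq_zero]
          exact hk
        rw [P.ord_mul _ _ hL (hXne 0), P.ord_const _ hk] at h
        linarith
    fin_cases j
    · simpa using sub_eq_zero.1 h5
    · simpa using h3
    · simpa using h4
  have k12 : ∀ g ∈ W, ∀ i j, i ≠ 0 → j ≠ 0 → g.1.1 j i = if j = i then 1 else 0 := by
    intro g hg i j hi hj
    have h1 := hbig g hg (X i) (hXne i)
    rw [hdiff g i] at h1
    have hXi : ((q : ℤ) ^ 3 - q) * P.ord (X i) = e := by
      have h2 := h12 (fun j => if j = i then 1 else 0) (by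
        fin_cases i
        · exact absurd rfl hi
        · left; simp
        · right; simp)
      rwa [Finset.sum_eq_single i, if_pos rfl, show cst k F L (1 : F) = 1 by simp [cst],
        one_mul] at h2
      · intro j _ hj
        simp [cst, hj]
      · intro h2
        exact absurd (mem_univ i) h2
    have h2 : ¬ ((fun j => g.1.1 j i - if j = i then 1 else 0) 1 ≠ 0 ∨
        (fun j => g.1.1 j i - if j = i then 1 else 0) 2 ≠ 0) := by
      intro h
      rcases h1 with h4 | h4
      · have h5 := hS.ind (fun j => g.1.1 j i - if j = i then 1 else 0) h4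
        rcases h with h | h
        · exact h (congrFun h5 1)
        · exact h (congrFun h5 2)
      · have h3 := h12 (fun j => g.1.1 j i - if j = i then 1 else 0) h
        have h5 : P.ord (∑ j, cst k F L (g.1.1 j i - if j = i then 1 else 0) * X j) =
            P.ord (X i) := mul_left_cancel₀ hpos.ne' (h3.trans hXi.symm)
        rw [h5] at h4
        linarith
    rw [not_or, not_not, not_not] at h2
    obtain ⟨h3, h4⟩ := h2
    fin_cases j
    · exact absurd rfl hj
    · exact sub_eq_zero.1 h3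
    · exact sub_eq_zero.1 h4
  have e10 : ∀ g ∈ W, g.1.1 1 0 = 0 := fun g hg => by simpa using k0 g hg 1
  have e20 : ∀ g ∈ W, g.1.1 2 0 = 0 := fun g hg => by simpa using k0 g hg 2
  have e00 : ∀ g ∈ W, g.1.1 0 0 = 1 := fun g hg => by simpa using k0 g hg 0
  have e11 : ∀ g ∈ W, g.1.1 1 1 = 1 := fun g hg => by
    simpa using k12 g hg 1 1 (by decide) (by decide)
  have e21 : ∀ g ∈ W, g.1.1 2 1 = 0 := fun g hg => by
    simpa using k12 g hg 1 2 (by decide) (by decide)
  have e12 : ∀ g ∈ W, g.1.1 1 2 = 0 := fun g hg => by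
    simpa using k12 g hg 2 1 (by decide) (by decide)
  have e22 : ∀ g ∈ W, g.1.1 2 2 = 1 := fun g hg => by
    simpa using k12 g hg 2 2 (by decide) (by decide)
  have a0 : ∀ g ∈ W, ρ g (X 0) = X 0 := by
    intro g hg
    rw [hC.act g 0, Fin.sum_univ_three, e00 g hg, e10 g hg, e20 g hg]
    simp [cst]
  have a1 : ∀ g ∈ W, ρ g (X 1) = X 1 + cst k F L (g.1.1 0 1) * X 0 := by
    intro g hg
    rw [hC.act g 1, Fin.sum_univ_three, e11 g hg, e21 g hg]
    simp [cst]
    ring
  have a2 : ∀ g ∈ W, ρ g (X 2) = X 2 + cst k F L (g.1.1 0 2) * X 0 := by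
    intro g hg
    rw [hC.act g 2, Fin.sum_univ_three, e12 g hg, e22 g hg]
    simp [cst]
    ring
  -- the coordinates
  let cc : G₀ → Fin 2 → F := fun g => ![g.1.1 0 1, g.1.1 0 2]
  let Z : Fin 2 → L := ![X 1 / X 0, X 2 / X 0]
  have bZ : ∀ g ∈ W, ∀ i, ρ g (Z i) = Z i + cst k F L (cc g i) := by
    intro g hg i
    have hx := hXne 0
    fin_cases i
    · show ρ g (X 1 / X 0) = X 1 / X 0 + cst k F L (g.1.1 0 1)
      rw [map_div₀, a0 g hg, a1 g hg]
      field_simp
    · show ρ g (X 2 / X 0) = X 2 / X 0 + cst k F L (g.1.1 0 2)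
      rw [map_div₀, a0 g hg, a2 g hg]
      field_simp
  have hcadd : ∀ a b : F, cst k F L (a + b) = cst k F L a + cst k F L b := by
    intro a b
    simp [cst]
  -- `∑ a_i (Z_i ^ q - Z_i)`
  let A : (Fin 2 → F) → L := fun a => ∑ i, cst k F L (a i) * (Z i ^ q - Z i)
  have bA : ∀ a, ∀ g ∈ W, ρ g (A a) = A a := by
    intro a g hg
    show ρ g (∑ i, cst k F L (a i) * (Z i ^ q - Z i)) = _
    rw [map_sum]
    refine Finset.sum_congr rfl fun i _ => ?_
    rw [map_mul, map_sub, map_pow, bZ g hg i, hfro, hc]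
    have : ρ g (cst k F L (a i)) = cst k F L (a i) := AlgEquiv.commutes _ _
    rw [this]
    ring
  have hIo : e = -(Nat.card I : ℤ) := hINF k L G₀ ρ t P I hC.cov ht hI
  have hAord : ∀ a : Fin 2 → F, a ≠ 0 →
      A a ≠ 0 ∧ ((q : ℤ) ^ 2 - 1) * P.ord (A a) = e * ((q : ℤ) ^ 2 + q + 1) := by
    intro a ha
    set x : L := ∑ i, cst k F L ((![0, a 0, a 1] : Fin 3 → F) i) * X i with hx
    have hor : (![0, a 0, a 1] : Fin 3 → F) 1 ≠ 0 ∨ (![0, a 0, a 1] : Fin 3 → F) 2 ≠ 0 := by
      by_contra hcon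
      rw [not_or, not_not, not_not] at hcon
      apply ha
      funext i
      fin_cases i
      · exact hcon.1
      · exact hcon.2
    have hx0 : x ≠ 0 := by
      intro h
      have h1 := hS.ind _ h
      rcases hor with h2 | h2
      · exact h2 (congrFun h1 1)
      · exact h2 (congrFun h1 2)
    have hxo : ((q : ℤ) ^ 3 - q) * P.ord x = e := h12 _ hor
    have hxn : P.ord x < 0 := hneg _ hor
    have hx' : x = cst k F L (a 0) * X 1 + cst k F L (a 1) * X 2 := by
      rw [hx, Fin.sum_univ_three]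
      simp [cst]
    have hxq : x ^ q = cst k F L (a 0) * X 1 ^ q + cst k F L (a 1) * X 2 ^ q := by
      rw [hx', hfro, mul_pow, mul_pow, hc, hc]
    have hne := hXne 0
    have hAe : A a = (x ^ q + -(X 0 ^ (q - 1) * x)) / X 0 ^ q := by
      show ∑ i, cst k F L (a i) * (Z i ^ q - Z i) = _
      have hz0 : Z 0 = X 1 / X 0 := rfl
      have hz1 : Z 1 = X 2 / X 0 := rfl
      have hqq : X 0 ^ q = X 0 ^ (q - 1) * X 0 := by
        rw [← pow_succ]
        congr 1
        omega
      have hne' : X 0 ^ (q - 1) ≠ 0 := pow_ne_zero _ hne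
      rw [Fin.sum_univ_two, hxq, hz0, hz1, div_pow, div_pow, hx', hqq]
      field_simp
      ring
    have hge : P.Ge (-(X 0 ^ (q - 1) * x)) (P.ord (x ^ q) + 1) := by
      refine Or.inr ?_
      rw [P.ord_neg, P.ord_mul _ _ (pow_ne_zero _ hne) hx0, P.ord_pow hne, P.ord_pow hx0]
      have h1 : ((q - 1 : ℕ) : ℤ) = (q : ℤ) - 1 := by
        push_cast [Nat.cast_sub (by omega : 1 ≤ q)]
        ring
      rw [h1]
      have h2 : 0 < ((q : ℤ) - 1) * P.ord (X 0) := mul_pos (by linarith) hX0
      nlinarith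
    obtain ⟨h1, h2⟩ := P.ord_add_of_lt (pow_ne_zero q hx0) hge
    have hX0q : X 0 ^ q ≠ 0 := pow_ne_zero _ hne
    have hA0 : A a ≠ 0 := by
      rw [hAe]
      exact div_ne_zero h1 hX0q
    refine ⟨hA0, ?_⟩
    have h3 : A a * X 0 ^ q = x ^ q + -(X 0 ^ (q - 1) * x) := by
      rw [hAe, div_mul_cancel₀ _ hX0q]
    have h4 : P.ord (A a) + q * P.ord (X 0) = q * P.ord x := by
      have h5 := P.ord_mul _ _ hA0 hX0q
      rw [h3, h2, P.ord_pow hx0, P.ord_pow hne] at h5
      linarith
    have h5 : ((q : ℤ) ^ 2 - 1) * (q * P.ord x) = e := by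
      rw [← hxo]
      ring
    have h6 : ((q : ℤ) ^ 2 - 1) * P.ord (A a) =
        ((q : ℤ) ^ 2 - 1) * (q * P.ord x) - q * (q + 1) * (((q : ℤ) - 1) * P.ord (X 0)) := by
      have : P.ord (A a) = q * P.ord x - q * P.ord (X 0) := by linarith
      rw [this]
      ring
    rw [h6, h5, h0]
    ring
  have hq21 : (0 : ℤ) < (q : ℤ) ^ 2 - 1 := by nlinarith
  have hWpos : 0 < Nat.card W := Nat.card_pos
  have hIpos : 0 < Nat.card I := Nat.card_pos
  have hnpos : 0 < n := by
    rcases Nat.eq_zero_or_pos n with h | h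
    · rw [h, zero_mul] at hcard
      omega
    · exact h
  obtain ⟨D, hD1, hDp, hDo, hDq⟩ : ∃ D : ℕ, 1 ≤ D ∧ ¬ p ∣ D ∧
      (∀ a : Fin 2 → F, a ≠ 0 → P.ord (A a) = -((D * Nat.card W : ℕ) : ℤ)) ∧
      (D : ℤ) * ((q : ℤ) ^ 2 - 1) = n * ((q : ℤ) ^ 2 + q + 1) := by
    have ha1 : (![1, 0] : Fin 2 → F) ≠ 0 := by
      intro h
      have := congrFun h 0
      simp at this
    obtain ⟨h1, h2⟩ := hAord _ ha1
    obtain ⟨z, hz⟩ := hTOT k L G₀ P ρ W hC.cov.inj (fun n hn => ((hWm n).1 hn).1) _ h1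
      (bA _)
    have hcI : (Nat.card I : ℤ) = n * Nat.card W := by exact_mod_cast hcard
    have h3 : ((q : ℤ) ^ 2 - 1) * (Nat.card W * z) = -(n * Nat.card W) * ((q : ℤ) ^ 2 + q + 1) := by
      rw [← hz, h2, hIo, hcI]
    have h4 : ((q : ℤ) ^ 2 - 1) * z = -(n * ((q : ℤ) ^ 2 + q + 1)) := by
      have h5 : (Nat.card W : ℤ) * (((q : ℤ) ^ 2 - 1) * z) =
          Nat.card W * (-(n * ((q : ℤ) ^ 2 + q + 1))) := by linarith
      exact mul_left_cancel₀ (by exact_mod_cast hWpos.ne') h5
    have h5 : 0 < (n : ℤ) * ((q : ℤ) ^ 2 + q + 1) :=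
      mul_pos (by exact_mod_cast hnpos) (by nlinarith)
    have hzneg : z < 0 := by
      by_contra hcon
      rw [not_lt] at hcon
      have := mul_nonneg hq21.le hcon
      linarith
    obtain ⟨D, hD⟩ : ∃ D : ℕ, z = -(D : ℤ) := ⟨z.natAbs, by omega⟩
    have hDq : (D : ℤ) * ((q : ℤ) ^ 2 - 1) = n * ((q : ℤ) ^ 2 + q + 1) := by
      rw [hD] at h4
      linarith
    refine ⟨D, by omega, ?_, ?_, hDq⟩
    · intro hpD
      have hpq : (p : ℤ) ∣ (q : ℤ) := by
        have : p ∣ q := by
          rw [hq]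
          exact dvd_pow_self p (by omega)
        exact_mod_cast this
      have h6 : (p : ℤ) ∣ (n : ℤ) := by
        have h7 : (p : ℤ) ∣ (D : ℤ) * ((q : ℤ) ^ 2 - 1) :=
          Dvd.dvd.mul_right (by exact_mod_cast hpD) _
        have h8 : (n : ℤ) = D * ((q : ℤ) ^ 2 - 1) - n * (q + 1) * q := by
          rw [hDq]
          ring
        rw [h8]
        exact dvd_sub h7 (Dvd.dvd.mul_left hpq _)
      exact hn (by exact_mod_cast h6)
    · intro a ha
      obtain ⟨h6, h7⟩ := hAord a ha
      have h8 : ((q : ℤ) ^ 2 - 1) * P.ord (A a) = ((q : ℤ) ^ 2 - 1) * (Nat.card W * z) := by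
        rw [h7, ← h2, hz]
      have h9 := mul_left_cancel₀ hq21.ne' h8
      rw [h9, hD]
      push_cast
      ring
  -- UMR
  have hmain := hUMR p k F L G₀ f q 2 D P ρ W ⊥ cc Z (fun _ => D) hp hchar hf hq hF (by norm_num)
    hC.cov.inj (fun g hg => (hWm g).1 hg) bot_le
    (by
      intro g hg
      rw [Subgroup.mem_bot]
      constructor
      · intro h
        funext i
        rw [h]
        fin_cases i
        · show (1 : Matrix (Fin 3) (Fin 3) F) 0 1 = 0
          simp
        · show (1 : Matrix (Fin 3) (Fin 3) F) 0 2 = 0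
          simp
      · intro h
        have h1 : g.1.1 0 1 = 0 := congrFun h 0
        have h2 : g.1.1 0 2 = 0 := congrFun h 1
        apply Subtype.ext
        apply Subtype.ext
        show g.1.1 = (1 : Matrix (Fin 3) (Fin 3) F)
        ext i j
        fin_cases i <;> fin_cases j
        · simpa using e00 g hg
        · simpa using h1
        · simpa using h2
        · simpa using e10 g hg
        · simpa using e11 g hg
        · simpa using e12 g hg
        · simpa using e20 g hg
        · simpa using e21 g hg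
        · simpa using e22 g hg)
    (by
      intro g hg g' hg'
      funext i
      have hm : ∀ j, (g * g').1.1 0 j = ∑ l, g.1.1 0 l * g'.1.1 l j := by
        intro j
        rw [Subgroup.coe_mul, Matrix.SpecialLinearGroup.coe_mul, Matrix.mul_apply]
      fin_cases i
      · show (g * g').1.1 0 1 = g.1.1 0 1 + g'.1.1 0 1
        rw [hm, Fin.sum_univ_three, e00 g hg, e11 g' hg', e21 g' hg']
        ring
      · show (g * g').1.1 0 2 = g.1.1 0 2 + g'.1.1 0 2
        rw [hm, Fin.sum_univ_three, e00 g hg, e12 g' hg', e22 g' hg']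
        ring)
    bZ
    (by
      intro a ha
      refine ⟨hD1, hDp, le_rfl, 0, fun w _ => map_zero _, ?_⟩
      rw [zero_pow hp.ne_zero, sub_zero, sub_zero]
      exact ⟨(hAord a ha).1, hDo a ha⟩)
  obtain ⟨m1, m2, -, m4⟩ := hmain
  obtain ⟨l, hl, hU⟩ := m4 rfl ⟨![1, 0], by
    intro h
    have := congrFun h 0
    simp at this, rfl⟩
  refine ⟨?_, ?_⟩
  · intro g hg h00
    obtain ⟨w, hw, hcw⟩ := m2 ![g.1 0 1, g.1 0 2]
    have h1 : w.1.1 0 1 = g.1 0 1 := congrFun hcw 0
    have h2 : w.1.1 0 2 = g.1 0 2 := congrFun hcw 1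
    have h3 : w.1 = g := by
      apply Subtype.ext
      show w.1.1 = g.1
      ext i j
      fin_cases i <;> fin_cases j
      · show w.1.1 0 0 = g.1 0 0
        rw [e00 w hw, h00]
      · exact h1
      · exact h2
      · show w.1.1 1 0 = g.1 1 0
        rw [e10 w hw, hg 1 0 (by decide)]
        simp
      · show w.1.1 1 1 = g.1 1 1
        rw [e11 w hw, hg 1 1 (by decide)]
        simp
      · show w.1.1 1 2 = g.1 1 2
        rw [e12 w hw, hg 1 2 (by decide)]
        simp
      · show w.1.1 2 0 = g.1 2 0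
        rw [e20 w hw, hg 2 0 (by decide)]
        simp
      · show w.1.1 2 1 = g.1 2 1
        rw [e21 w hw, hg 2 1 (by decide)]
        simp
      · show w.1.1 2 2 = g.1 2 2
        rw [e22 w hw, hg 2 2 (by decide)]
        simp
    rw [← h3]
    exact w.2
  · have h1 := hCNV k L G₀ P ρ W I l hC.cov.inj hW hI hl
    rw [hU] at h1
    have h2 : (Nat.card W : ℚ) * ((D : ℤ) : ℚ) / Nat.card I =
        ((q : ℚ) ^ 2 + q + 1) / ((q : ℚ) ^ 2 - 1) := by
      have hq' : ((q : ℚ) ^ 2 - 1) ≠ 0 := by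
        have : (0 : ℚ) < ((((q : ℤ) ^ 2 - 1 : ℤ)) : ℚ) := by exact_mod_cast hq21
        push_cast at this
        exact this.ne'
      have hDq' : (D : ℚ) * ((q : ℚ) ^ 2 - 1) = n * ((q : ℚ) ^ 2 + q + 1) := by
        exact_mod_cast hDq
      have hI' : (Nat.card I : ℚ) ≠ 0 := by exact_mod_cast hIpos.ne'
      have hcI : (Nat.card I : ℚ) = n * Nat.card W := by exact_mod_cast hcard
      rw [div_eq_div_iff hI' hq', hcI]
      push_cast
      linear_combination (Nat.card W : ℚ) * hDq'
    have h3 : (Nat.card W : ℚ) * (D : ℚ) / Nat.card I =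
        ((q : ℚ) ^ 2 + q + 1) / ((q : ℚ) ^ 2 - 1) := by
      simpa using h2
    rw [← h3]
    simpa using h1

end Pool.CND
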